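import Pool.Agent.Helper74.CA.Stmts

/-! Module BC: base change of the Lie algebra data to an algebraically closed field. -/

set_option autoImplicit false

namespace Pool.Agent.Helper74.CA

open TensorProduct Submodule

section gen

variable {R M : Type} [CommRing R] [AddCommGroup M] [Module R M]

theorem BC_ns (b : M →ₗ[R] M) (m : ℕ) (x : M) (h : (b ^ m) x = x) :
    b (∑ i ∈ Finset.range m, (b ^ i) x) = ∑ i ∈ Finset.range m, (b ^ i) x := by
  have h1 : b (∑ i ∈ Finset.range m, (b ^ i) x) = ∑ i ∈ Finset.range m, (b ^ (i + 1)) x := by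
    rw [map_sum]
    refine Finset.sum_congr rfl (fun i _ => ?_)
    rw [pow_succ']
    rfl
  have h2 := Finset.sum_range_succ (fun i => (b ^ i) x) m
  have h3 := Finset.sum_range_succ' (fun i => (b ^ i) x) m
  rw [h2] at h3
  simp only [pow_zero, Module.End.one_apply] at h3
  rw [h] at h3
  rw [h1]
  exact (add_right_cancel h3).symm

theorem BC_nf (b : M →ₗ[R] M) (m : ℕ) (x : M) (h : b x = x) :
    ∑ i ∈ Finset.range m, (b ^ i) x = m • x := by
  have h1 : ∀ i : ℕ, (b ^ i) x = x := by
    intro i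
    induction i with
    | zero => simp
    | succ i ih =>
      rw [pow_succ]
      change (b ^ i) (b x) = x
      rw [h, ih]
  rw [Finset.sum_congr rfl (fun i _ => h1 i), Finset.sum_const, Finset.card_range]

end gen

section tri

variable {k M : Type} [Field k] [AddCommGroup M] [Module k M]

theorem BC_tri (F : M → M → M → M) (s1 s2 s3 : Set M)
    (a1 : ∀ x x' y z, F (x + x') y z = F x y z + F x' y z)
    (m1 : ∀ (r : k) x y z, F (r • x) y z = r • F x y z)
    (a2 : ∀ x y y' z, F x (y + y') z = F x y z + F x y' z)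
    (m2 : ∀ (r : k) x y z, F x (r • y) z = r • F x y z)
    (a3 : ∀ x y z z', F x y (z + z') = F x y z + F x y z')
    (m3 : ∀ (r : k) x y z, F x y (r • z) = r • F x y z)
    (h : ∀ x ∈ s1, ∀ y ∈ s2, ∀ z ∈ s3, F x y z = 0) :
    ∀ x ∈ span k s1, ∀ y ∈ span k s2, ∀ z ∈ span k s3, F x y z = 0 := by
  intro x hx y hy z hz
  induction hx using Submodule.span_induction with
  | mem x hx =>
    induction hy using Submodule.span_induction with
    | mem y hy =>
      induction hz using Submodule.span_induction with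
      | mem z hz => exact h x hx y hy z hz
      | zero =>
        have := m3 0 x y 0
        rwa [zero_smul, zero_smul] at this
      | add z z' _ _ h1 h2 => rw [a3, h1, h2, add_zero]
      | smul r z _ h1 => rw [m3, h1, smul_zero]
    | zero =>
      have := m2 0 x 0 z
      rwa [zero_smul, zero_smul] at this
    | add y y' _ _ h1 h2 => rw [a2, h1, h2, add_zero]
    | smul r y _ h1 => rw [m2, h1, smul_zero]
  | zero =>
    have := m1 0 0 y z
    rwa [zero_smul, zero_smul] at this
  | add x x' _ _ h1 h2 => rw [a1, h1, h2, add_zero]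
  | smul r x _ h1 => rw [m1, h1, smul_zero]

end tri

section bc

variable {k : Type} [Field k] [Algebra (ZMod 3) k] {L : Type} [LieRing L] [LieAlgebra (ZMod 3) L]

/-- the set of pure tensors with first factor one -/
def BCs (k : Type) [Field k] [Algebra (ZMod 3) k] {L : Type} [LieRing L] [LieAlgebra (ZMod 3) L]
    (p : Submodule (ZMod 3) L) : Set (k ⊗[ZMod 3] L) := {z | ∃ x ∈ p, z = (1 : k) ⊗ₜ[ZMod 3] x}

theorem BC_span (p : Submodule (ZMod 3) L) : p.baseChange k = span k (BCs k p) := by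
  rw [Submodule.baseChange_eq_span]
  congr 1
  ext z
  constructor
  · rintro ⟨x, hx, rfl⟩
    exact ⟨x, hx, rfl⟩
  · rintro ⟨x, hx, rfl⟩
    exact ⟨x, hx, rfl⟩

theorem BC_le (p : Submodule (ZMod 3) L) (q : Submodule k (k ⊗[ZMod 3] L))
    (h : ∀ x ∈ p, (1 : k) ⊗ₜ[ZMod 3] x ∈ q) : ∀ z ∈ p.baseChange k, z ∈ q := by
  intro z hz
  rw [BC_span] at hz
  refine (Submodule.span_le.2 ?_) hz
  rintro w ⟨x, hx, rfl⟩
  exact h x hx

theorem BC_sp (s : Set L) (q : Submodule k (k ⊗[ZMod 3] L))
    (h : ∀ x ∈ s, (1 : k) ⊗ₜ[ZMod 3] x ∈ q) :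
    ∀ x ∈ span (ZMod 3) s, (1 : k) ⊗ₜ[ZMod 3] x ∈ q := by
  intro x hx
  induction hx using Submodule.span_induction with
  | mem x hx => exact h x hx
  | zero => rw [TensorProduct.tmul_zero]; exact q.zero_mem
  | add x y _ _ h1 h2 => rw [TensorProduct.tmul_add]; exact q.add_mem h1 h2
  | smul r x _ h1 =>
    have h2 : (1 : k) ⊗ₜ[ZMod 3] (r • x) = (algebraMap (ZMod 3) k r) • ((1 : k) ⊗ₜ[ZMod 3] x) := by
      rw [TensorProduct.smul_tmul', TensorProduct.tmul_smul, TensorProduct.smul_tmul',
        Algebra.smul_def, smul_eq_mul]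
    rw [h2]
    exact q.smul_mem _ h1

theorem BC_pow (a : L →ₗ[ZMod 3] L) (i : ℕ) (s : k) (x : L) :
    ((a.baseChange k) ^ i) (s ⊗ₜ[ZMod 3] x) = s ⊗ₜ[ZMod 3] ((a ^ i) x) := by
  induction i with
  | zero => simp
  | succ i ih =>
    rw [pow_succ', pow_succ']
    change (a.baseChange k) (((a.baseChange k) ^ i) (s ⊗ₜ[ZMod 3] x)) = s ⊗ₜ[ZMod 3] (a ((a ^ i) x))
    rw [ih, LinearMap.baseChange_tmul]

theorem BC_npow (a : L →ₗ[ZMod 3] L) (i : ℕ) (s : k) (x : L) :
    ((-(a.baseChange k)) ^ i) (s ⊗ₜ[ZMod 3] x) = s ⊗ₜ[ZMod 3] (((-a) ^ i) x) := by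
  induction i with
  | zero => simp
  | succ i ih =>
    rw [pow_succ', pow_succ']
    change (-(a.baseChange k)) (((-(a.baseChange k)) ^ i) (s ⊗ₜ[ZMod 3] x)) =
      s ⊗ₜ[ZMod 3] ((-a) (((-a) ^ i) x))
    rw [ih, LinearMap.neg_apply, LinearMap.baseChange_tmul, LinearMap.neg_apply,
      TensorProduct.tmul_neg]

theorem BC_alie (a : L →ₗ[ZMod 3] L) (h : ∀ x y, a ⁅x, y⁆ = ⁅a x, a y⁆)
    (x y : k ⊗[ZMod 3] L) : (a.baseChange k) ⁅x, y⁆ = ⁅a.baseChange k x, a.baseChange k y⁆ := by
  induction x using TensorProduct.induction_on with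
  | zero => simp
  | add x x' hx hx' => rw [add_lie, map_add, hx, hx', map_add, add_lie]
  | tmul s u =>
    induction y using TensorProduct.induction_on with
    | zero => simp
    | add y y' hy hy' => rw [lie_add, map_add, hy, hy', map_add, lie_add]
    | tmul t v =>
      rw [LieAlgebra.ExtendScalars.bracket_tmul, LinearMap.baseChange_tmul,
        LinearMap.baseChange_tmul, LinearMap.baseChange_tmul,
        LieAlgebra.ExtendScalars.bracket_tmul, h]

theorem BC_one (x y : L) : ⁅(1 : k) ⊗ₜ[ZMod 3] x, (1 : k) ⊗ₜ[ZMod 3] y⁆ =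
    (1 : k) ⊗ₜ[ZMod 3] ⁅x, y⁆ := by
  rw [LieAlgebra.ExtendScalars.bracket_tmul, one_mul]

end bc

/-- the base change of the data -/
noncomputable def BCd (k : Type) [Field k] [Algebra (ZMod 3) k] {L : Type} [LieRing L]
    [LieAlgebra (ZMod 3) L] {n : ℕ} (d : LB (ZMod 3) L n) : LB k (k ⊗[ZMod 3] L) n where
  G := fun i => (d.G i).baseChange k
  a := d.a.baseChange k
  e := fun i => (1 : k) ⊗ₜ[ZMod 3] d.e i
  an := by
    refine LinearMap.ext (fun x => ?_)
    induction x using TensorProduct.induction_on with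
    | zero => simp
    | add x y hx hy => rw [map_add, hx, hy, map_add]
    | tmul s x =>
      rw [BC_pow, d.an]
      rfl
  n0 := by
    intro h
    apply d.n0
    have h1 : algebraMap (ZMod 3) k ((n : ℕ) : ZMod 3) = 0 := by rw [map_natCast]; exact h
    exact (map_eq_zero_iff _ (algebraMap (ZMod 3) k).injective).1 h1
  c3 := by
    have h1 : algebraMap (ZMod 3) k (3 : ZMod 3) = (3 : k) := by rw [map_ofNat]
    rw [← h1, d.c3, map_zero]
  aG := by
    intro i x hx
    refine BC_le (d.G i) (((d.G i).baseChange k).comap (d.a.baseChange k)) ?_ x hx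
    intro y hy
    rw [Submodule.mem_comap, LinearMap.baseChange_tmul]
    exact Submodule.tmul_mem_baseChange_of_mem 1 (d.aG i y hy)
  alie := BC_alie d.a d.alie
  glie := by
    intro i j x hx y hy
    have h1 : ∀ u ∈ d.G i, ∀ y ∈ (d.G j).baseChange k,
        ⁅(1 : k) ⊗ₜ[ZMod 3] u, y⁆ ∈ (d.G (i + j)).baseChange k := by
      intro u hu y hy
      refine BC_le (d.G j) (((d.G (i + j)).baseChange k).comap
        (LieModule.toEnd k (k ⊗[ZMod 3] L) (k ⊗[ZMod 3] L) ((1 : k) ⊗ₜ[ZMod 3] u))) ?_ y hy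
      intro v hv
      rw [Submodule.mem_comap, LieModule.toEnd_apply_apply, BC_one]
      exact Submodule.tmul_mem_baseChange_of_mem 1 (d.glie i j u hu v hv)
    have h2 : -⁅y, x⁆ ∈ (d.G (i + j)).baseChange k := by
      refine Submodule.neg_mem _ ?_
      refine BC_le (d.G i) (((d.G (i + j)).baseChange k).comap
        (LieModule.toEnd k (k ⊗[ZMod 3] L) (k ⊗[ZMod 3] L) y)) ?_ x hx
      intro u hu
      rw [Submodule.mem_comap, LieModule.toEnd_apply_apply, ← lie_skew]
      exact Submodule.neg_mem _ (h1 u hu y hy)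
    rwa [lie_skew] at h2
  gen := by
    intro i hi x hx
    refine BC_le (d.G (i + 1)) _ ?_ x hx
    intro y hy
    refine BC_sp _ _ ?_ y (d.gen i hi y hy)
    rintro z ⟨u, hu, v, hv, rfl⟩
    refine Submodule.subset_span ⟨(1 : k) ⊗ₜ[ZMod 3] u,
      Submodule.tmul_mem_baseChange_of_mem 1 hu, (1 : k) ⊗ₜ[ZMod 3] v,
      Submodule.tmul_mem_baseChange_of_mem 1 hv, ?_⟩
    rw [BC_one]
  fix := by
    intro x hx hax
    have hn0 : (n : k) ≠ 0 := by
      intro h
      apply d.n0
      have h1 : algebraMap (ZMod 3) k ((n : ℕ) : ZMod 3) = 0 := by rw [map_natCast]; exact h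
      exact (map_eq_zero_iff _ (algebraMap (ZMod 3) k).injective).1 h1
    have h1 : ∑ i ∈ Finset.range n, ((d.a.baseChange k) ^ i) x = n • x :=
      BC_nf (d.a.baseChange k) n x hax
    have h2 : (∑ i ∈ Finset.range n, (d.a.baseChange k) ^ i) x = 0 := by
      refine BC_le (d.G 1) (LinearMap.ker (∑ i ∈ Finset.range n, (d.a.baseChange k) ^ i)) ?_ x hx
      intro y hy
      rw [LinearMap.mem_ker, LinearMap.sum_apply,
        Finset.sum_congr rfl (fun i _ => BC_pow d.a i (1 : k) y), ← TensorProduct.tmul_sum]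
      have h3 : ∑ i ∈ Finset.range n, (d.a ^ i) y = 0 := by
        refine d.fix _ ?_ ?_
        · refine Submodule.sum_mem _ (fun i hi' => ?_)
          clear hi'
          induction i with
          | zero => simpa using hy
          | succ i ih =>
            rw [pow_succ']
            exact d.aG 1 _ ih
        · exact BC_ns d.a n y (by rw [d.an]; rfl)
      rw [h3, TensorProduct.tmul_zero]
    rw [LinearMap.sum_apply, h1, ← Nat.cast_smul_eq_nsmul k] at h2
    exact (smul_eq_zero.1 h2).resolve_left hn0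
  T := by
    intro i hi x hx y hy z hz
    rw [BC_span] at hx hy hz
    refine BC_tri (fun x y z => ⁅⁅d.a.baseChange k x - x, y⁆, z⁆ +
      ⁅⁅d.a.baseChange k x - x, z⁆, y⁆) (BCs k (d.G i)) (BCs k (d.G 1)) (BCs k (d.G 1))
      ?_ ?_ ?_ ?_ ?_ ?_ ?_ x hx y hy z hz
    · intro x x' y z
      simp only [map_add, add_sub_add_comm, add_lie]
      abel
    · intro r x y z
      simp only [map_smul, ← smul_sub, smul_lie, ← smul_add]
    · intro x y y' z
      simp only [lie_add, add_lie]
      abel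
    · intro r x y z
      simp only [lie_smul, smul_lie, ← smul_add]
    · intro x y z z'
      simp only [lie_add, add_lie]
      abel
    · intro r x y z
      simp only [lie_smul, smul_lie, ← smul_add]
    · rintro x ⟨x, hx, rfl⟩ y ⟨y, hy, rfl⟩ z ⟨z, hz, rfl⟩
      simp only [LinearMap.baseChange_tmul, ← TensorProduct.tmul_sub, BC_one,
        ← TensorProduct.tmul_add]
      rw [d.T i hi x hx y hy z hz, TensorProduct.tmul_zero]
  eG := fun i => Submodule.tmul_mem_baseChange_of_mem 1 (d.eG i)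
  ea := by
    intro i
    rw [LinearMap.baseChange_tmul, d.ea, TensorProduct.tmul_neg]
  espan := by
    intro x hx hax
    have hn0 : ((2 * n : ℕ) : k) ≠ 0 := by
      intro h
      have h1 : algebraMap (ZMod 3) k ((2 * n : ℕ) : ZMod 3) = 0 := by rw [map_natCast]; exact h
      have h2 := (map_eq_zero_iff _ (algebraMap (ZMod 3) k).injective).1 h1
      rw [Nat.cast_mul] at h2
      rcases mul_eq_zero.1 h2 with h3 | h3
      · exact absurd h3 (by decide)
      · exact d.n0 h3
    have hb : (-(d.a.baseChange k)) x = x := by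
      rw [LinearMap.neg_apply, hax, neg_neg]
    have h1 : ∑ i ∈ Finset.range (2 * n), ((-(d.a.baseChange k)) ^ i) x = (2 * n) • x :=
      BC_nf (-(d.a.baseChange k)) (2 * n) x hb
    have h2 : (∑ i ∈ Finset.range (2 * n), (-(d.a.baseChange k)) ^ i) x ∈
        span k (Set.range (fun i => (1 : k) ⊗ₜ[ZMod 3] d.e i)) := by
      refine BC_le (d.G 1) ((span k (Set.range (fun i => (1 : k) ⊗ₜ[ZMod 3] d.e i))).comap
        (∑ i ∈ Finset.range (2 * n), (-(d.a.baseChange k)) ^ i)) ?_ x hx
      intro y hy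
      rw [Submodule.mem_comap, LinearMap.sum_apply,
        Finset.sum_congr rfl (fun i _ => BC_npow d.a i (1 : k) y), ← TensorProduct.tmul_sum]
      refine BC_sp (Set.range d.e) _ ?_ _ ?_
      · rintro z ⟨i, rfl⟩
        exact Submodule.subset_span ⟨i, rfl⟩
      · refine d.espan _ ?_ ?_
        · refine Submodule.sum_mem _ (fun i hi' => ?_)
          clear hi'
          induction i with
          | zero => simpa using hy
          | succ i ih =>
            rw [pow_succ']
            exact Submodule.neg_mem _ (d.aG 1 _ ih)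
        · have h3 := BC_ns (-d.a) (2 * n) y (by
            rw [pow_mul, neg_sq, ← pow_mul, mul_comm, pow_mul, d.an, one_pow]
            rfl)
          rw [LinearMap.neg_apply] at h3
          rw [← neg_eq_iff_eq_neg]
          exact h3
    rw [LinearMap.sum_apply, h1, ← Nat.cast_smul_eq_nsmul k] at h2
    exact (Submodule.smul_mem_iff _ hn0).1 h2

theorem st_BC : ST_BC := by
  intro L _ _ n d hP
  refine ⟨AlgebraicClosure (ZMod 3), inferInstance, inferInstance,
    (AlgebraicClosure (ZMod 3)) ⊗[ZMod 3] L, inferInstance, inferInstance,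
    BCd (AlgebraicClosure (ZMod 3)) d,
    (TensorProduct.mk (ZMod 3) (AlgebraicClosure (ZMod 3)) L 1).toAddMonoidHom, ?_, ?_, ?_⟩
  · intro i j
    have h := hP i j
    have h1 : (BCd (AlgebraicClosure (ZMod 3)) d).t =
        (1 : AlgebraicClosure (ZMod 3)) ⊗ₜ[ZMod 3] d.t := by
      unfold LB.t BCd
      rw [BC_one, BC_one]
    have h2 : ∀ i, (BCd (AlgebraicClosure (ZMod 3)) d).c i =
        (1 : AlgebraicClosure (ZMod 3)) ⊗ₜ[ZMod 3] d.c i := by
      intro i
      unfold LB.c BCd
      rw [BC_one]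
    rw [h1, h2, h2, BC_one, BC_one, BC_one, BC_one, ← TensorProduct.tmul_add, h,
      TensorProduct.tmul_zero]
  · exact Module.FaithfullyFlat.tensorProduct_mk_injective (A := ZMod 3)
      (B := AlgebraicClosure (ZMod 3)) L
  · intro i x hx
    exact Submodule.tmul_mem_baseChange_of_mem 1 hx

end Pool.Agent.Helper74.CA
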